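import Pool.Agent.Helper44.AUC.Explicit

set_option autoImplicit false

namespace Pool.Agent.Results.MP_87a66e_an.ExplicitModuli

/-- The `n`-th modulus at the point `z`, computed with the function `N` as norm:
`modulus N n t z` is the iterated `sup inf` over closed finite codimensional subspaces and their
`N`-unit vectors of `N (z + t (y₁ + ... + yₙ)) - 1`. -/
noncomputable def modulus {X : Type} [NormedAddCommGroup X] [NormedSpace ℝ X] (N : X → ℝ) :
    ℕ → ℝ → X → EReal
  | 0, _, z => ((N z - 1 : ℝ) : EReal)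
  | (k + 1), t, z =>
      ⨆ (Y : Submodule ℝ X) (_ : IsClosed (Y : Set X)) (_ : FiniteDimensional ℝ (X ⧸ Y)),
        ⨅ (y : X) (_ : y ∈ Y) (_ : N y = 1), modulus N k t (z + t • y)

lemma modulus_eq (N : Pool.Agent.Helper44.AUC.X → ℝ) (n : ℕ) (t : ℝ)
    (z : Pool.Agent.Helper44.AUC.X) :
    modulus N n t z = Pool.Agent.Helper44.AUC.dl N n t z := by
  induction n generalizing z with
  | zero => rfl
  | succ k ih =>
    simp only [modulus, Pool.Agent.Helper44.AUC.dl, ih]

theorem result :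
    ∃ (X : Type) (_ : NormedAddCommGroup X) (_ : NormedSpace ℝ X),
      CompleteSpace X ∧ TopologicalSpace.SeparableSpace X ∧
      (∀ (n : ℕ) (t : ℝ) (x : X), 0 < t → ‖x‖ = 1 →
        ((t * (Real.sqrt (3 * n / 80) - 1 / 4) - 2 : ℝ) : EReal)
          ≤ modulus (fun v : X => ‖v‖) n t x) ∧
      (∀ (p : Seminorm ℝ X) (a b t : ℝ), 0 < a → 0 < b →
        (∀ x : X, a * ‖x‖ ≤ p x ∧ p x ≤ b * ‖x‖) → 0 < t → t ≤ a / (6 * b) →
        (⨅ (x : X) (_ : p x = 1), modulus (fun v : X => p v) 1 t x) ≤ 0) := by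
  refine ⟨Pool.Agent.Helper44.AUC.X, inferInstance, inferInstance, inferInstance,
    Pool.Agent.Helper44.AUC.separableSpace_X, ?_, ?_⟩
  · intro n t x ht hx
    rw [modulus_eq]
    exact Pool.Agent.Helper44.AUC.moduli_ge ht n x hx
  · intro p a b t ha hb hab ht htb
    simp only [modulus_eq]
    exact Pool.Agent.Helper44.AUC.not_AUC_explicit p a b ha hb hab ht htb

end Pool.Agent.Results.MP_87a66e_an.ExplicitModuli
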